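import Pool.Agent.Run7.h92.JG.Stm

set_option autoImplicit false

namespace Pool.Agent.Run7.h538.JG

open Complex
open UpperHalfPlane hiding I
open Pool.Agent.Run7.h92.JG

theorem pr_zero {n : ℕ} (l : Fin n → ℝ) : pr l 0 = 0 := by simp [pr]

theorem t_COEF : S_COEF := by
  intro n L k φ h
  obtain ⟨f, hf0, hf⟩ := h.fourier
  have key : ∀ (l : Fin n → ℝ) (τ : ℍ), Summable fun m : ℕ => f m l * e (m * τ) := by
    intro l τ
    have h1 := (hf τ 0).summable
    have h2 : Summable fun p : (Fin n → ℝ) × ℕ =>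
        f p.2 p.1 * cexp (2 * Real.pi * I * (p.2 * τ + pr p.1 0)) :=
      (Equiv.prodComm (Fin n → ℝ) ℕ).summable_iff.2 h1
    have h3 := h2.prod_factor l
    refine h3.congr fun m => ?_
    simp only [pr_zero, add_zero, e]
  refine ⟨fun l τ => ∑' m : ℕ, f m l * e (m * τ), fun l m => f m l, ?_, ?_, ?_⟩
  · intro l hl τ
    simp [hf0 _ l hl]
  · intro τ z
    have h1 : HasSum (fun p : (Fin n → ℝ) × ℕ =>
        f p.2 p.1 * cexp (2 * Real.pi * I * (p.2 * τ + pr p.1 z))) (φ τ z) :=
      (Equiv.prodComm (Fin n → ℝ) ℕ).hasSum_iff.2 (hf τ z)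
    refine h1.prod_fiberwise fun l => ?_
    have h2 := ((key l τ).hasSum).mul_right (e (pr l z))
    have h3 : (fun m : ℕ => f m l * e (m * τ) * e (pr l z)) = fun m : ℕ =>
        f m l * cexp (2 * Real.pi * I * (m * τ + pr l z)) := by
      funext m
      unfold e
      rw [mul_assoc, ← Complex.exp_add]
      congr 2
      ring
    rw [h3] at h2
    exact h2
  · intro l τ
    exact (key l τ).hasSum

end Pool.Agent.Run7.h538.JG
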