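import Pool.Agent.Run7.h92.JG.Stm

set_option autoImplicit false

namespace Pool.Agent.Run7.h538.JG

open Complex
open UpperHalfPlane hiding I
open Pool.Agent.Run7.h92.JG

theorem e_zero' : e 0 = 1 := by simp [e]

theorem e_add' (a b : ℂ) : e (a + b) = e a * e b := by
  unfold e
  rw [← Complex.exp_add]
  congr 1
  ring

theorem pr_sh {n : ℕ} (l x : Fin n → ℝ) (τ : ℂ) (z : Fin n → ℂ) :
    pr l (sh τ z x 0) = pr l z + (ip l x : ℝ) * τ := by
  unfold pr sh ip
  push_cast
  rw [Finset.sum_mul, ← Finset.sum_add_distrib]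
  refine Finset.sum_congr rfl fun i _ => ?_
  simp
  ring

theorem pr_real {n : ℕ} (l u : Fin n → ℝ) : pr l (fun i => (u i : ℂ)) = (ip l u : ℝ) := by
  unfold pr ip
  push_cast
  rfl

theorem pr_add {n : ℕ} (l x : Fin n → ℝ) (z : Fin n → ℂ) : pr (l + x) z = pr l z + pr x z := by
  unfold pr
  rw [← Finset.sum_add_distrib]
  refine Finset.sum_congr rfl fun i _ => ?_
  simp
  ring

theorem t_QP (hU : S_UNIQ) : S_QP := by
  intro n c ψ τ x hs hq
  -- the two expansions
  have hA : ∀ z, HasSum (fun l => (c l * e ((ip l x : ℝ) * τ)) * e (pr l z)) (ψ (sh τ z x 0)) := by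
    intro z
    have h1 := hs (sh τ z x 0)
    have h3 : (fun l => (c l * e ((ip l x : ℝ) * τ)) * e (pr l z)) =
        fun l => c l * e (pr l (sh τ z x 0)) := by
      funext l
      rw [pr_sh, e_add']
      ring
    rw [h3]
    exact h1
  have hB : ∀ z, HasSum (fun l => (c (l + x) * e (-((ip x x : ℝ) * τ / 2))) * e (pr l z))
      (ψ (sh τ z x 0)) := by
    intro z
    have h1 := (hs z).mul_left (e (-((ip x x : ℝ) * τ / 2) - pr x z))
    rw [← hq z] at h1
    have h2 := (Equiv.addRight x).hasSum_iff.2 h1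
    have h3 : (fun l => (c (l + x) * e (-((ip x x : ℝ) * τ / 2))) * e (pr l z)) =
        (fun l => e (-((ip x x : ℝ) * τ / 2) - pr x z) * (c l * e (pr l z))) ∘
          (Equiv.addRight x) := by
      funext l
      show (c (l + x) * e (-((ip x x : ℝ) * τ / 2))) * e (pr l z) =
        e (-((ip x x : ℝ) * τ / 2) - pr x z) * (c (l + x) * e (pr (l + x) z))
      rw [pr_add, e_add', sub_eq_add_neg, e_add']
      have : e (-pr x z) * e (pr x z) = 1 := by
        rw [← e_add', neg_add_cancel, e_zero']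
      linear_combination (-(c (l + x) * e (-((ip x x : ℝ) * τ / 2)) * e (pr l z))) * this
    rw [h3]
    exact h2
  have hD : ∀ u : Fin n → ℝ, HasSum (fun l => (c l * e ((ip l x : ℝ) * τ) -
      c (l + x) * e (-((ip x x : ℝ) * τ / 2))) * e (ip l u : ℝ)) 0 := by
    intro u
    have h1 := (hA (fun i => (u i : ℂ))).sub (hB (fun i => (u i : ℂ)))
    rw [sub_self] at h1
    have h3 : (fun l => (c l * e ((ip l x : ℝ) * τ) -
      c (l + x) * e (-((ip x x : ℝ) * τ / 2))) * e (ip l u : ℝ)) = fun b =>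
      c b * e ((ip b x : ℝ) * τ) * e (pr b fun i => (u i : ℂ)) -
        c (b + x) * e (-((ip x x : ℝ) * τ / 2)) * e (pr b fun i => (u i : ℂ)) := by
      funext l
      rw [pr_real]
      ring
    rw [h3]
    exact h1
  have hsum : Summable fun l => c l * e ((ip l x : ℝ) * τ) -
      c (l + x) * e (-((ip x x : ℝ) * τ / 2)) := by
    have h1 := (hD 0).summable
    have h3 : (fun l => (c l * e ((ip l x : ℝ) * τ) -
      c (l + x) * e (-((ip x x : ℝ) * τ / 2))) * e (ip l 0 : ℝ)) =
      fun l => c l * e ((ip l x : ℝ) * τ) - c (l + x) * e (-((ip x x : ℝ) * τ / 2)) := by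
      funext l
      have : ip l 0 = 0 := by simp [ip]
      rw [this]
      simp [e_zero']
    rw [h3] at h1
    exact h1
  have h0 := hU n _ hsum (fun u => (hD u).tsum_eq)
  intro l
  have h1 := h0 l
  have h2 : e ((((ip x x : ℝ) : ℂ) / 2 + (ip l x : ℝ)) * τ) =
      e ((ip x x : ℝ) * τ / 2) * e ((ip l x : ℝ) * τ) := by
    rw [← e_add']
    congr 1
    ring
  have h3 : e ((ip x x : ℝ) * τ / 2) * e (-((ip x x : ℝ) * τ / 2)) = 1 := by
    rw [← e_add', add_neg_cancel, e_zero']
  rw [h2]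
  linear_combination (-e ((ip x x : ℝ) * τ / 2)) * h1 - c (l + x) * h3

end Pool.Agent.Run7.h538.JG
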